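import Pool.Agent.Helper66_ML.Stmts3

/-!
# MN3: the main theorem in terms of defect groups
-/

set_option autoImplicit false

noncomputable section

namespace Pool.Agent.PP.ML.H6

open Pool.Agent.Helper51_AWC Pool.Agent.Helper79_WRA Pool.Agent.PP Pool.Agent.Helper98_CC
open Pool.Agent.PP.ML

/-- MN3 -/
theorem mn3 (hmn2 : Mn2Stmt) (hexg : ExgStmt) : Mn3Stmt := by
  intro ℓ _ M _ hℓM G _ _ hcore χ hχ D hD A _ ρ hρ z hz
  obtain ⟨g, k, hg, hDg, hidx, hgk⟩ := hexg ℓ M hℓM G χ hχ D hD (z : G) z.2 (by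
    intro d hd
    exact congrArg Subtype.val (hz ⟨d, hd⟩))
  have hk : g ^ k ∈ D := by rw [hgk]; exact z.2
  have h1 := hmn2 ℓ M hℓM G hcore χ hχ g hg D hD.1 hDg hidx A ρ hρ k hk
  have h2 : (⟨g ^ k, hk⟩ : D) = z := Subtype.ext hgk
  rwa [h2] at h1

end Pool.Agent.PP.ML.H6
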